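import Mathlib.ModelTheory.Semantics
import Mathlib.Topology.Closure
import Mathlib.Topology.Separation.Basic
import Mathlib.Tactic

/-!
# Contact algebras of regular closed sets
-/

set_option autoImplicit false

open FirstOrder FirstOrder.Language

namespace Pool.Agent.Q300.Contact

/-- The function symbols `0`, `1`, `·`, `+` and `*` (complement). -/
inductive Fn : ℕ → Type
  | zero : Fn 0
  | one : Fn 0
  | mul : Fn 2
  | add : Fn 2
  | star : Fn 1

/-- The relation symbol `C`. -/
inductive Rel : ℕ → Type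
  | C : Rel 2

/-- The language of contact algebras. -/
def Lang : FirstOrder.Language.{0, 0} := ⟨Fn, Rel⟩

/-- The regular closed sets of a topological space. -/
def RC (X : Type) [TopologicalSpace X] : Type := {a : Set X // closure (interior a) = a}

section RC

variable {X : Type} [TopologicalSpace X]

theorem isClosed_of_regular {a : Set X} (ha : closure (interior a) = a) : IsClosed a := by
  rw [← ha]
  exact isClosed_closure

theorem regular_closure_of_isOpen {u : Set X} (hu : IsOpen u) :
    closure (interior (closure u)) = closure u := by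
  apply subset_antisymm
  · exact closure_minimal interior_subset isClosed_closure
  · exact closure_mono (interior_maximal subset_closure hu)

theorem regular_union {a b : Set X} (ha : closure (interior a) = a)
    (hb : closure (interior b) = b) : closure (interior (a ∪ b)) = a ∪ b := by
  apply subset_antisymm
  · exact closure_minimal interior_subset
      ((isClosed_of_regular ha).union (isClosed_of_regular hb))
  · apply Set.union_subset
    · conv_lhs => rw [← ha]
      exact closure_mono (interior_mono Set.subset_union_left)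
    · conv_lhs => rw [← hb]
      exact closure_mono (interior_mono Set.subset_union_right)

/-- The standard contact algebra of the regular closed sets. -/
instance : Lang.Structure (RC X) where
  funMap := fun {n} (f : Fn n) =>
    match n, f with
    | _, Fn.zero => fun _ => ⟨∅, by simp⟩
    | _, Fn.one => fun _ => ⟨Set.univ, by simp⟩
    | _, Fn.mul => fun v => ⟨closure (interior ((v 0).1 ∩ (v 1).1)),
        regular_closure_of_isOpen isOpen_interior⟩
    | _, Fn.add => fun v => ⟨(v 0).1 ∪ (v 1).1, regular_union (v 0).2 (v 1).2⟩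
    | _, Fn.star => fun v => ⟨closure (v 0).1ᶜ,
        regular_closure_of_isOpen (isClosed_of_regular (v 0).2).isOpen_compl⟩
  RelMap := fun {n} (r : Rel n) =>
    match n, r with
    | _, Rel.C => fun v => ((v 0).1 ∩ (v 1).1).Nonempty

end RC

/-! ### Graphs and their clans -/

/-- A reflexive symmetric relation. -/
structure Gr where
  D : Type
  R : D → D → Prop
  refl : ∀ x, R x x
  symm : ∀ x y, R x y → R y x

/-- The subsets of the graph. -/
def Alg (G : Gr) : Type := Set G.D

/-- Two sets are in contact if they contain related elements. -/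
def Con (G : Gr) (S T : Set G.D) : Prop := ∃ s ∈ S, ∃ t ∈ T, G.R s t

instance (G : Gr) : Lang.Structure (Alg G) where
  funMap := fun {n} (f : Fn n) =>
    match n, f with
    | _, Fn.zero => fun _ => (∅ : Set G.D)
    | _, Fn.one => fun _ => (Set.univ : Set G.D)
    | _, Fn.mul => fun v => ((v 0 : Set G.D) ∩ (v 1 : Set G.D) : Set G.D)
    | _, Fn.add => fun v => ((v 0 : Set G.D) ∪ (v 1 : Set G.D) : Set G.D)
    | _, Fn.star => fun v => ((v 0 : Set G.D)ᶜ : Set G.D)
  RelMap := fun {n} (r : Rel n) =>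
    match n, r with
    | _, Rel.C => fun v => Con G (v 0) (v 1)

/-- The clans of the algebra of all subsets. -/
structure GClan (G : Gr) (Γ : Set (Set G.D)) : Prop where
  univ_mem : Set.univ ∈ Γ
  empty_notMem : ∅ ∉ Γ
  mono : ∀ S T : Set G.D, S ∈ Γ → S ⊆ T → T ∈ Γ
  union : ∀ S T : Set G.D, S ∪ T ∈ Γ → S ∈ Γ ∨ T ∈ Γ
  con : ∀ S T : Set G.D, S ∈ Γ → T ∈ Γ → Con G S T

/-- The clan of two related elements. -/
def two (G : Gr) (s t : G.D) : Set (Set G.D) := {U | s ∈ U ∨ t ∈ U}

theorem two_clan {G : Gr} {s t : G.D} (h : G.R s t) : GClan G (two G s t) where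
  univ_mem := Or.inl trivial
  empty_notMem := fun h => h.elim id id
  mono := fun _ _ h hST => h.imp (fun h => hST h) fun h => hST h
  union := by
    rintro S T ((h | h) | (h | h))
    · exact Or.inl (Or.inl h)
    · exact Or.inr (Or.inl h)
    · exact Or.inl (Or.inr h)
    · exact Or.inr (Or.inr h)
  con := by
    rintro S T (h1 | h1) (h2 | h2)
    · exact ⟨s, h1, s, h2, G.refl s⟩
    · exact ⟨s, h1, t, h2, h⟩
    · exact ⟨t, h1, s, h2, G.symm _ _ h⟩
    · exact ⟨t, h1, t, h2, G.refl t⟩

/-- A sufficiently large set of clans. -/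
structure Big (G : Gr) (A : Set (Set (Set G.D))) : Prop where
  clan : ∀ Γ ∈ A, GClan G Γ
  two : ∀ s t, G.R s t → two G s t ∈ A

/-- The space of clans. -/
def Sp (G : Gr) (A : Set (Set (Set G.D))) : Type := {Γ : Set (Set G.D) // Γ ∈ A}

/-- The closed set of a set. -/
def h {G : Gr} (A : Set (Set (Set G.D))) (S : Set G.D) : Set (Sp G A) := {Γ | S ∈ Γ.1}

section Space

variable {G : Gr} {A : Set (Set (Set G.D))}

/-- The topology: the sets `h S` form a closed basis. -/
@[reducible] def topology (hA : Big G A) : TopologicalSpace (Sp G A) where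
  IsOpen U := ∀ Γ ∈ U, ∃ S : Set G.D, S ∉ Γ.1 ∧ ∀ Γ' : Sp G A, S ∉ Γ'.1 → Γ' ∈ U
  isOpen_univ := fun Γ _ => ⟨∅, (hA.clan Γ.1 Γ.2).empty_notMem, fun _ _ => trivial⟩
  isOpen_inter := by
    rintro U V hU hV Γ ⟨h1, h2⟩
    obtain ⟨S, hS, hS'⟩ := hU Γ h1
    obtain ⟨T, hT, hT'⟩ := hV Γ h2
    refine ⟨S ∪ T, fun h => ((hA.clan Γ.1 Γ.2).union S T h).elim hS hT, fun Γ' h => ?_⟩
    exact ⟨hS' Γ' fun h' => h ((hA.clan Γ'.1 Γ'.2).mono S _ h' Set.subset_union_left),
      hT' Γ' fun h' => h ((hA.clan Γ'.1 Γ'.2).mono T _ h' Set.subset_union_right)⟩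
  isOpen_sUnion := by
    rintro 𝒰 h𝒰 Γ ⟨U, hU, hΓ⟩
    obtain ⟨S, hS, hS'⟩ := h𝒰 U hU Γ hΓ
    exact ⟨S, hS, fun Γ' h => ⟨U, hU, hS' Γ' h⟩⟩

/-- The principal point. -/
def pt (hA : Big G A) (d : G.D) : Sp G A := ⟨two G d d, hA.two d d (G.refl d)⟩

theorem mem_pt (hA : Big G A) (d : G.D) (S : Set G.D) : S ∈ (pt hA d).1 ↔ d ∈ S :=
  or_self_iff

variable (hA : Big G A)

theorem isOpen_compl_h (S : Set G.D) : @IsOpen _ (topology hA) (h A S)ᶜ :=
  fun _ hΓ => ⟨S, hΓ, fun _ h => h⟩

theorem isClosed_h (S : Set G.D) : @IsClosed _ (topology hA) (h A S) :=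
  @IsClosed.mk _ (topology hA) _ (isOpen_compl_h hA S)

theorem mem_closure_iff' (U : Set (Sp G A)) (Γ : Sp G A) : Γ ∈ @closure _ (topology hA) U ↔
    ∀ S, S ∉ Γ.1 → ∃ Γ' ∈ U, S ∉ Γ'.1 := by
  let _ := topology hA
  rw [mem_closure_iff]
  constructor
  · intro h1 S hS
    obtain ⟨Γ', h2, h3⟩ := h1 _ (isOpen_compl_h hA S) hS
    exact ⟨Γ', h3, h2⟩
  · intro h1 V hV hΓ
    obtain ⟨S, hS, hS'⟩ := hV Γ hΓ
    obtain ⟨Γ', h2, h3⟩ := h1 S hS
    exact ⟨Γ', hS' Γ' h3, h2⟩

theorem closure_compl (S : Set G.D) : @closure _ (topology hA) (h A S)ᶜ = h A Sᶜ := by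
  let _ := topology hA
  apply subset_antisymm
  · apply closure_minimal _ (isClosed_h hA _)
    intro Γ hΓ
    have h1 : S ∪ Sᶜ ∈ Γ.1 := by
      rw [Set.union_compl_self]
      exact (hA.clan Γ.1 Γ.2).univ_mem
    exact ((hA.clan Γ.1 Γ.2).union _ _ h1).resolve_left hΓ
  · intro Γ hΓ
    rw [mem_closure_iff']
    intro T hT
    obtain ⟨d, hd⟩ : ∃ d, d ∉ S ∧ d ∉ T := by
      by_contra hcon
      push Not at hcon
      exact hT ((hA.clan Γ.1 Γ.2).mono _ _ hΓ hcon)
    exact ⟨pt hA d, fun h1 => hd.1 ((mem_pt hA d S).1 h1), fun h1 => hd.2 ((mem_pt hA d T).1 h1)⟩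

theorem interior_h (S : Set G.D) : @interior _ (topology hA) (h A S) = (h A Sᶜ)ᶜ := by
  let _ := topology hA
  rw [← closure_compl hA, closure_compl hA S, interior_eq_compl_closure_compl, closure_compl hA S]

theorem regular_h (S : Set G.D) :
    @closure _ (topology hA) (@interior _ (topology hA) (h A S)) = h A S := by
  let _ := topology hA
  rw [interior_h hA, closure_compl hA, compl_compl]

include hA in
theorem h_injective : Function.Injective (h A) := by
  intro S T hST
  ext d
  rw [← mem_pt hA d S, ← mem_pt hA d T]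
  exact Set.ext_iff.1 hST (pt hA d)

theorem exists_h (F : Set (Sp G A))
    (hF : @closure _ (topology hA) (@interior _ (topology hA) F) = F) : ∃ S, h A S = F := by
  let _ := topology hA
  refine ⟨{d | pt hA d ∈ interior F}, ?_⟩
  conv_rhs => rw [← hF]
  apply subset_antisymm
  · intro Γ hΓ
    rw [mem_closure_iff']
    intro W hW
    obtain ⟨d, hd, hdW⟩ : ∃ d, pt hA d ∈ interior F ∧ d ∉ W := by
      by_contra hcon
      push Not at hcon
      exact hW ((hA.clan Γ.1 Γ.2).mono _ _ hΓ hcon)
    exact ⟨pt hA d, hd, fun h1 => hdW ((mem_pt hA d W).1 h1)⟩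
  · apply closure_minimal _ (isClosed_h hA _)
    intro Γ hΓ
    obtain ⟨W, hW, hW'⟩ := (isOpen_interior : IsOpen (interior F)) Γ hΓ
    have h1 : Wᶜ ∈ Γ.1 := by
      have h2 : W ∪ Wᶜ ∈ Γ.1 := by
        rw [Set.union_compl_self]
        exact (hA.clan Γ.1 Γ.2).univ_mem
      exact ((hA.clan Γ.1 Γ.2).union _ _ h2).resolve_left hW
    exact (hA.clan Γ.1 Γ.2).mono _ _ h1 fun d hd =>
      hW' (pt hA d) fun h3 => hd ((mem_pt hA d W).1 h3)

include hA in
theorem h_union (S T : Set G.D) : h A (S ∪ T) = h A S ∪ h A T := by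
  ext Γ
  constructor
  · exact fun h1 => (hA.clan Γ.1 Γ.2).union S T h1
  · rintro (h1 | h1)
    · exact (hA.clan Γ.1 Γ.2).mono S _ h1 Set.subset_union_left
    · exact (hA.clan Γ.1 Γ.2).mono T _ h1 Set.subset_union_right

theorem h_inter (S T : Set G.D) :
    h A (S ∩ T) = @closure _ (topology hA) (@interior _ (topology hA) (h A S ∩ h A T)) := by
  let _ := topology hA
  rw [interior_inter, interior_h hA, interior_h hA, ← Set.compl_union, ← h_union hA,
    closure_compl hA, Set.compl_union, compl_compl, compl_compl]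

include hA in
theorem h_con (S T : Set G.D) : (h A S ∩ h A T).Nonempty ↔ Con G S T := by
  constructor
  · rintro ⟨Γ, h1, h2⟩
    exact (hA.clan Γ.1 Γ.2).con S T h1 h2
  · rintro ⟨s, hs, t, ht, hst⟩
    exact ⟨⟨two G s t, hA.two s t hst⟩, Or.inl hs, Or.inr ht⟩

/-- The regular closed sets of the space of clans. -/
noncomputable def iso : Alg G ≃[Lang] @RC (Sp G A) (topology hA) :=
  let _ := topology hA
  { Equiv.ofBijective (fun S : Alg G => (⟨h A S, regular_h hA S⟩ : RC (Sp G A)))
      ⟨fun _ _ hST => h_injective hA (congrArg Subtype.val hST),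
        fun F => by
          obtain ⟨S, hS⟩ := exists_h hA F.1 F.2
          exact ⟨S, Subtype.ext hS⟩⟩ with
    map_fun' := by
      intro n f v
      match n, f with
      | _, Fn.zero =>
        apply Subtype.ext
        change h A (∅ : Set G.D) = ∅
        rw [Set.eq_empty_iff_forall_notMem]
        exact fun Γ hΓ => (hA.clan Γ.1 Γ.2).empty_notMem hΓ
      | _, Fn.one =>
        apply Subtype.ext
        change h A (Set.univ : Set G.D) = Set.univ
        rw [Set.eq_univ_iff_forall]
        exact fun Γ => (hA.clan Γ.1 Γ.2).univ_mem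
      | _, Fn.mul => exact Subtype.ext (h_inter hA _ _)
      | _, Fn.add => exact Subtype.ext (h_union hA _ _)
      | _, Fn.star => exact Subtype.ext (closure_compl hA _).symm
    map_rel' := by
      intro n r v
      match n, r with
      | _, Rel.C => exact h_con hA _ _ }

theorem iso_apply (S : Set G.D) : (iso hA (S : Alg G)).1 = h A S := rfl

end Space

end Pool.Agent.Q300.Contact
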