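import Pool.Agent.Q300.Contact.Basic

/-!
# A Feferman-Vaught theorem for the contact algebras of disjoint unions of graphs
-/

set_option autoImplicit false

open FirstOrder FirstOrder.Language

namespace Pool.Agent.Q300.Contact

/-- The disjoint union of a sequence of graphs. -/
def sumG (G : ℕ → Gr) : Gr where
  D := Σ i, (G i).D
  R a b := ∃ i x y, a = ⟨i, x⟩ ∧ b = ⟨i, y⟩ ∧ (G i).R x y
  refl := fun ⟨i, x⟩ => ⟨i, x, x, rfl, rfl, (G i).refl x⟩
  symm := by
    rintro a b ⟨i, x, y, rfl, rfl, h⟩
    exact ⟨i, y, x, rfl, rfl, (G i).symm _ _ h⟩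

/-- An element of the algebra as a set. -/
def toSet {G : Gr} (S : Alg G) : Set G.D := S

/-- A set as an element of the algebra. -/
def ofSet {G : Gr} (S : Set G.D) : Alg G := S

/-- The part of a subset of the disjoint union in the component `i`. -/
def sl {G : ℕ → Gr} (i : ℕ) (S : Alg (sumG G)) : Alg (G i) :=
  ofSet {x : (G i).D | (⟨i, x⟩ : (sumG G).D) ∈ toSet S}

/-- The subset with the given parts. -/
def glue {G : ℕ → Gr} (S : ∀ i, Alg (G i)) : Alg (sumG G) :=
  ofSet {x : (sumG G).D | x.2 ∈ toSet (S x.1)}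

theorem sl_glue {G : ℕ → Gr} (S : ∀ i, Alg (G i)) (i : ℕ) : sl i (glue S) = S i := rfl

theorem sl_ext {G : ℕ → Gr} {S T : Alg (sumG G)} (h : ∀ i, sl i S = sl i T) : S = T := by
  have h1 : ∀ x : (sumG G).D, x ∈ toSet S ↔ x ∈ toSet T := by
    rintro ⟨i, x⟩
    exact iff_of_eq (congrArg (fun U => x ∈ toSet U) (h i))
  exact Set.ext h1

theorem sl_realize {G : ℕ → Gr} {α : Type*} (t : Lang.Term α) (v : α → Alg (sumG G)) (i : ℕ) :
    sl i (t.realize v) = t.realize (fun a => sl i (v a)) := by
  induction t with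
  | var a => rfl
  | @func n f ts ih =>
    match n, f with
    | _, Fn.zero => rfl
    | _, Fn.one => rfl
    | _, Fn.mul =>
      change ofSet (toSet (sl i ((ts 0).realize v)) ∩ toSet (sl i ((ts 1).realize v))) = _
      rw [ih 0, ih 1]
      rfl
    | _, Fn.add =>
      change ofSet (toSet (sl i ((ts 0).realize v)) ∪ toSet (sl i ((ts 1).realize v))) = _
      rw [ih 0, ih 1]
      rfl
    | _, Fn.star =>
      change ofSet (toSet (sl i ((ts 0).realize v)))ᶜ = _
      rw [ih 0]
      rfl

theorem con_iff {G : ℕ → Gr} (S T : Alg (sumG G)) :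
    Con (sumG G) (toSet S) (toSet T) ↔ ∃ i, Con (G i) (toSet (sl i S)) (toSet (sl i T)) := by
  constructor
  · rintro ⟨s, hs, t, ht, i, x, y, rfl, rfl, hxy⟩
    exact ⟨i, x, hs, y, ht, hxy⟩
  · rintro ⟨i, x, hs, y, ht, hxy⟩
    exact ⟨⟨i, x⟩, hs, ⟨i, y⟩, ht, i, x, y, rfl, rfl, hxy⟩

/-- The truth of `φ` in a disjoint union depends only on the sets of the components where the
formulas `θ j` are true. -/
theorem fv {α : Type} {n : ℕ} (φ : Lang.BoundedFormula α n) :
    ∃ (ι : Type) (_ : Fintype ι) (θ : ι → Lang.BoundedFormula α n) (Φ : (ι → Set ℕ) → Prop),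
      ∀ (G : ℕ → Gr) (v : α → Alg (sumG G)) (xs : Fin n → Alg (sumG G)),
        φ.Realize v xs ↔
          Φ fun j => {i | (θ j).Realize (fun a => sl i (v a)) (fun a => sl i (xs a))} := by
  induction φ with
  | falsum =>
    refine ⟨Empty, inferInstance, Empty.elim, fun _ => False, fun G v xs => Iff.rfl⟩
  | @equal n t₁ t₂ =>
    refine ⟨Unit, inferInstance, fun _ => BoundedFormula.equal t₁ t₂,
      fun S => S () = Set.univ, fun G v xs => ?_⟩
    have hcomp : ∀ i, (fun a => sl i (Sum.elim v xs a)) =
        Sum.elim (fun a => sl i (v a)) fun a => sl i (xs a) := by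
      intro i
      funext a
      cases a <;> rfl
    constructor
    · intro h
      have h' : t₁.realize (Sum.elim v xs) = t₂.realize (Sum.elim v xs) := h
      apply Set.eq_univ_of_forall
      intro i
      change t₁.realize (Sum.elim (fun a => sl i (v a)) fun a => sl i (xs a)) =
        t₂.realize (Sum.elim (fun a => sl i (v a)) fun a => sl i (xs a))
      rw [← hcomp i, ← sl_realize, ← sl_realize, h']
    · intro h
      change t₁.realize (Sum.elim v xs) = t₂.realize (Sum.elim v xs)
      apply sl_ext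
      intro i
      have h' : t₁.realize (Sum.elim (fun a => sl i (v a)) fun a => sl i (xs a)) =
          t₂.realize (Sum.elim (fun a => sl i (v a)) fun a => sl i (xs a)) :=
        Set.eq_univ_iff_forall.1 h i
      rw [sl_realize, sl_realize, hcomp i, h']
  | @rel n l R ts =>
    refine ⟨Unit, inferInstance, fun _ => BoundedFormula.rel R ts,
      fun S => (S ()).Nonempty, fun G v xs => ?_⟩
    have hcomp : ∀ i, (fun a => sl i (Sum.elim v xs a)) =
        Sum.elim (fun a => sl i (v a)) fun a => sl i (xs a) := by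
      intro i
      funext a
      cases a <;> rfl
    match l, R with
    | _, Rel.C =>
      change Con (sumG G) (toSet ((ts 0).realize (Sum.elim v xs)))
          (toSet ((ts 1).realize (Sum.elim v xs))) ↔
        ∃ i, Con (G i)
          (toSet ((ts 0).realize (Sum.elim (fun a => sl i (v a)) fun a => sl i (xs a))))
          (toSet ((ts 1).realize (Sum.elim (fun a => sl i (v a)) fun a => sl i (xs a))))
      rw [con_iff]
      apply exists_congr
      intro i
      rw [sl_realize, sl_realize, hcomp i]
  | imp f₁ f₂ ih₁ ih₂ =>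
    obtain ⟨ι₁, _, θ₁, Φ₁, h₁⟩ := ih₁
    obtain ⟨ι₂, _, θ₂, Φ₂, h₂⟩ := ih₂
    refine ⟨ι₁ ⊕ ι₂, inferInstance, Sum.elim θ₁ θ₂,
      fun S => Φ₁ (fun j => S (Sum.inl j)) → Φ₂ (fun j => S (Sum.inr j)), fun G v xs => ?_⟩
    simp only [BoundedFormula.Realize, h₁, h₂]
    rfl
  | @all n f ih =>
    classical
    obtain ⟨ι, _, θ, Φ, h⟩ := ih
    -- for each pattern the formula which says that the pattern is realized
    let χ : Set ι → Lang.BoundedFormula α n := fun J =>
      (BoundedFormula.iInf fun j => if j ∈ J then θ j else ∼(θ j)).ex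
    have hχ : ∀ (G : Gr) (J : Set ι) (v : α → Alg G) (xs : Fin n → Alg G),
        (χ J).Realize v xs ↔ ∃ y : Alg G, ∀ j, j ∈ J ↔ (θ j).Realize v (Fin.snoc xs y) := by
      intro G J v xs
      simp only [χ, BoundedFormula.realize_ex, BoundedFormula.realize_iInf]
      apply exists_congr
      intro y
      apply forall_congr'
      intro j
      by_cases hj : j ∈ J
      · simp [hj]
      · simp [hj, BoundedFormula.realize_not]
    refine ⟨Set ι, inferInstance, χ, fun S => ∀ f : ℕ → Set ι, (∀ i, i ∈ S (f i)) →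
      Φ fun j => {i | j ∈ f i}, fun G v xs => ?_⟩
    simp only [BoundedFormula.Realize, Set.mem_ofPred_eq, hχ]
    constructor
    · intro h1 f hf
      choose y hy using hf
      have h2 := (h G v (Fin.snoc xs (glue y))).1 (h1 (glue y))
      convert h2 using 3 with j
      ext i
      rw [hy i j]
      apply iff_of_eq
      congr 1
      funext a
      refine Fin.lastCases ?_ (fun a => ?_) a
      · rw [Fin.snoc_last, Fin.snoc_last, sl_glue]
      · rw [Fin.snoc_castSucc, Fin.snoc_castSucc]
    · intro h1 y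
      rw [h]
      have h2 := h1 (fun i => {j | (θ j).Realize (fun a => sl i (v a))
        (Fin.snoc (fun a => sl i (xs a)) (sl i y))}) (fun i => ⟨sl i y, fun j => Iff.rfl⟩)
      convert h2 using 3 with j
      ext i
      apply iff_of_eq
      change (θ j).Realize (fun a => sl i (v a)) _ = (θ j).Realize (fun a => sl i (v a)) _
      congr 1
      funext a
      refine Fin.lastCases ?_ (fun a => ?_) a
      · rw [Fin.snoc_last, Fin.snoc_last]
      · rw [Fin.snoc_castSucc, Fin.snoc_castSucc]

end Pool.Agent.Q300.Contact
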