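import Pool.Agent.Q300.Contact.Sum
import Mathlib.Order.Filter.Ultrafilter.Defs
import Mathlib.Order.Filter.Ultrafilter.Basic

/-!
# Graphs without triangles and clans
-/

set_option autoImplicit false

open FirstOrder FirstOrder.Language

namespace Pool.Agent.Q300.Contact

/-- The edges. -/
def Edge (x y : Fin 3 × ℕ × ℕ) : Prop :=
  y.1 = x.1 + 1 ∧ x.2.2 = y.2.1 ∧ x.2.1 < x.2.2 ∧ y.2.1 < y.2.2

/-- The graph `T k`: the vertices are `(c, i, j)` with `i, j < k`; `(c, i, j)` and `(c + 1, j, l)`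
are joined if `i < j < l`. -/
def T (k : ℕ) : Gr where
  D := {x : Fin 3 × ℕ × ℕ // x.2.1 < k ∧ x.2.2 < k}
  R x y := x = y ∨ Edge x.1 y.1 ∨ Edge y.1 x.1
  refl := fun x => Or.inl rfl
  symm := by
    rintro x y (h | h | h)
    · exact Or.inl h.symm
    · exact Or.inr (Or.inr h)
    · exact Or.inr (Or.inl h)

/-- There is no triangle with one vertex in each of the three parts. -/
theorem no_triangle {k : ℕ} (x y z : (T k).D) (hx : x.1.1 = 0) (hy : y.1.1 = 1) (hz : z.1.1 = 2)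
    (hxy : (T k).R x y) (hyz : (T k).R y z) (hxz : (T k).R x z) : False := by
  have h1 : Edge x.1 y.1 := by
    rcases hxy with h | h | h
    · rw [h, hy] at hx
      exact absurd hx (by decide)
    · exact h
    · have := h.1
      rw [hx, hy] at this
      exact absurd this (by decide)
  have h2 : Edge y.1 z.1 := by
    rcases hyz with h | h | h
    · rw [h, hz] at hy
      exact absurd hy (by decide)
    · exact h
    · have := h.1
      rw [hy, hz] at this
      exact absurd this (by decide)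
  have h3 : Edge z.1 x.1 := by
    rcases hxz with h | h | h
    · rw [h, hz] at hx
      exact absurd hx (by decide)
    · have := h.1
      rw [hx, hz] at this
      exact absurd this (by decide)
    · exact h
  obtain ⟨-, a1, a2, a3⟩ := h1
  obtain ⟨-, b1, b2, b3⟩ := h2
  obtain ⟨-, c1, c2, c3⟩ := h3
  omega

/-- The three parts. -/
def part (k : ℕ) (c : Fin 3) : Alg (T k) := ofSet {x : (T k).D | x.1.1 = c}

/-- The three parts of a disjoint union. -/
def parts (K : ℕ → ℕ) (c : Fin 3) : Alg (sumG fun i => T (K i)) := glue fun i => part (K i) c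

/-- If the numbers `K i` are unbounded then there is a clan which contains the three parts. -/
theorem exists_clan (K : ℕ → ℕ) (hK : ∀ i, i ≤ K i) :
    ∃ Γ, GClan (sumG fun i => T (K i)) Γ ∧ ∀ c, toSet (parts K c) ∈ Γ := by
  let U : Ultrafilter ℕ := Filter.hyperfilter ℕ
  have hU : ∀ i : ℕ, ∀ᶠ j in U, i < j := by
    intro i
    have h1 : ∀ᶠ j in Filter.cofinite, i < j := by
      rw [Nat.cofinite_eq_atTop]
      exact Filter.eventually_gt_atTop i
    exact h1.filter_mono Filter.hyperfilter_le_cofinite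
  -- the ultrafilters
  let P : Set (sumG fun i => T (K i)).D → ℕ → Fin 3 → ℕ → ℕ → Prop := fun S N c i j =>
    ∃ h : i < K N ∧ j < K N, (⟨N, ⟨(c, i, j), h⟩⟩ : (sumG fun i => T (K i)).D) ∈ S
  let q : Fin 3 → Set (Set (sumG fun i => T (K i)).D) := fun c =>
    {S | ∀ᶠ i in U, ∀ᶠ j in U, ∀ᶠ N in U, P S N c i j}
  have hparts : ∀ c, toSet (parts K c) ∈ q c := by
    intro c
    refine Filter.Eventually.of_forall fun i => Filter.Eventually.of_forall fun j => ?_
    filter_upwards [hU i, hU j] with N h1 h2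
    exact ⟨⟨lt_of_lt_of_le h1 (hK N), lt_of_lt_of_le h2 (hK N)⟩, rfl⟩
  have hmono : ∀ c S S', S ∈ q c → S ⊆ S' → S' ∈ q c := by
    intro c S S' hS hST
    refine Filter.Eventually.mono hS fun i h1 => h1.mono fun j h2 => h2.mono fun N h3 => ?_
    obtain ⟨h4, h5⟩ := h3
    exact ⟨h4, hST h5⟩
  have hcon : ∀ c S S', S ∈ q c → S' ∈ q (c + 1) → Con (sumG fun i => T (K i)) S S' := by
    intro c S S' hS hS'
    obtain ⟨i, hi⟩ := Filter.Eventually.exists hS
    obtain ⟨j, ⟨hij, h1⟩, h2⟩ := (((hU i).and hi).and hS').exists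
    obtain ⟨l, hjl, h3⟩ := ((hU j).and h2).exists
    obtain ⟨N, h4, h5⟩ := (h1.and h3).exists
    obtain ⟨h6, h7⟩ := h4
    obtain ⟨h8, h9⟩ := h5
    exact ⟨_, h7, _, h9, N, _, _, rfl, rfl, Or.inr (Or.inl ⟨rfl, rfl, hij, hjl⟩)⟩
  have hself : ∀ c S S', S ∈ q c → S' ∈ q c → Con (sumG fun i => T (K i)) S S' := by
    intro c S S' hS hS'
    obtain ⟨i, hi, hi'⟩ := (Filter.Eventually.and hS hS').exists
    obtain ⟨j, hj, hj'⟩ := (hi.and hi').exists
    obtain ⟨N, hN, hN'⟩ := (hj.and hj').exists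
    obtain ⟨h6, h7⟩ := hN
    obtain ⟨h8, h9⟩ := hN'
    exact ⟨_, h7, _, h9, (sumG fun i => T (K i)).refl _⟩
  refine ⟨{S | ∃ c, S ∈ q c}, ?_, fun c => ⟨c, hparts c⟩⟩
  constructor
  · exact ⟨0, hmono 0 _ _ (hparts 0) (Set.subset_univ _)⟩
  · rintro ⟨c, hc⟩
    obtain ⟨s, hs, -⟩ := hself c _ _ hc hc
    exact hs
  · rintro S S' ⟨c, hc⟩ hSS'
    exact ⟨c, hmono c S S' hc hSS'⟩
  · rintro S S' ⟨c, hc⟩
    have h1 : (∀ᶠ i in U, ∀ᶠ j in U, ∀ᶠ N in U, P S N c i j) ∨
        (∀ᶠ i in U, ∀ᶠ j in U, ∀ᶠ N in U, P S' N c i j) := by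
      rw [← Ultrafilter.eventually_or]
      refine Filter.Eventually.mono hc fun i h1 => ?_
      rw [← Ultrafilter.eventually_or]
      refine Filter.Eventually.mono h1 fun j h2 => ?_
      rw [← Ultrafilter.eventually_or]
      refine Filter.Eventually.mono h2 fun N h3 => ?_
      obtain ⟨h4, h5 | h5⟩ := h3
      · exact Or.inl ⟨h4, h5⟩
      · exact Or.inr ⟨h4, h5⟩
    exact h1.imp (fun h => ⟨c, h⟩) fun h => ⟨c, h⟩
  · rintro S S' ⟨c, hc⟩ ⟨c', hc'⟩
    have h0 : ∀ c c' : Fin 3, c' = c ∨ c' = c + 1 ∨ c = c' + 1 := by decide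
    rcases h0 c c' with rfl | rfl | rfl
    · exact hself _ _ _ hc hc'
    · exact hcon _ _ _ hc hc'
    · obtain ⟨s, hs, t, ht, hst⟩ := hcon _ _ _ hc' hc
      exact ⟨t, ht, s, hs, (sumG fun i => T (K i)).symm _ _ hst⟩

/-- If the sequence is constant then no clan contains the three parts. -/
theorem not_exists_clan (k : ℕ) (Γ : Set (Set (sumG fun _ => T k).D))
    (hΓ : GClan (sumG fun _ => T k) Γ) : ¬ ∀ c, toSet (parts (fun _ => k) c) ∈ Γ := by
  intro hall
  -- the pieces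
  let Q : (T k).D → Set (sumG fun _ => T k).D := fun x => {y | y.2 = x}
  have hunion : ∀ F : Set (T k).D, F.Finite → (⋃ x ∈ F, Q x) ∈ Γ → ∃ x ∈ F, Q x ∈ Γ := by
    intro F hF
    induction F, hF using Set.Finite.induction_on with
    | empty =>
      intro h
      simp only [Set.mem_empty_iff_false, Set.iUnion_of_empty, Set.iUnion_empty] at h
      exact absurd h hΓ.empty_notMem
    | @insert a F _ _ ih =>
      intro h
      rw [Set.biUnion_insert] at h
      rcases hΓ.union _ _ h with h | h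
      · exact ⟨a, Set.mem_insert _ _, h⟩
      · obtain ⟨x, hx, hx'⟩ := ih h
        exact ⟨x, Set.mem_insert_of_mem _ hx, hx'⟩
  have hfin : Finite (T k).D := by
    have h1 : ({x : Fin 3 × ℕ × ℕ | x.2.1 < k ∧ x.2.2 < k}).Finite := by
      apply ((Set.finite_univ (α := Fin 3)).prod
        ((Set.finite_Iio k).prod (Set.finite_Iio k))).subset
      rintro ⟨c, i, j⟩ ⟨h1, h2⟩
      exact ⟨trivial, h1, h2⟩
    exact h1.to_subtype
  have hpiece : ∀ c : Fin 3, ∃ x : (T k).D, x.1.1 = c ∧ Q x ∈ Γ := by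
    intro c
    have h1 : toSet (parts (fun _ => k) c) = ⋃ x ∈ {x : (T k).D | x.1.1 = c}, Q x := by
      ext y
      simp only [Set.mem_iUnion]
      constructor
      · intro hy
        exact ⟨y.2, hy, rfl⟩
      · rintro ⟨x, hx, hy⟩
        have hy' : y.2 = x := hy
        have hx' : x.1.1 = c := hx
        rw [← hy'] at hx'
        exact hx'
    have h2 := hall c
    rw [h1] at h2
    obtain ⟨x, hx, hx'⟩ := hunion _ (Set.toFinite _) h2
    exact ⟨x, hx, hx'⟩
  have hR : ∀ x y : (T k).D, Q x ∈ Γ → Q y ∈ Γ → (T k).R x y := by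
    intro x y hx hy
    obtain ⟨s, hs, t, ht, i, a, b, rfl, rfl, hab⟩ := hΓ.con _ _ hx hy
    have h1 : a = x := hs
    have h2 : b = y := ht
    rw [← h1, ← h2]
    exact hab
  obtain ⟨x, hx, hx'⟩ := hpiece 0
  obtain ⟨y, hy, hy'⟩ := hpiece 1
  obtain ⟨z, hz, hz'⟩ := hpiece 2
  exact no_triangle x y z hx hy hz (hR x y hx' hy') (hR y z hy' hz') (hR x z hx' hz')

end Pool.Agent.Q300.Contact
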